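import Pool.Agent.Lib.MP_4cd976_an.Own.Main

/-!
# The exact covering radii for the class `S_H^0`
-/

set_option autoImplicit false

open Complex Metric Set

namespace Pool.Agent.Results.MP_4cd976_an.CoveringRadius

open Pool.Agent.Lib.MP4cd976.Own

theorem result :
    (∀ h g : ℂ → ℂ, SH0 h g → ∀ R : ℝ, 0 < R → R ≤ 1 →
      ball (0 : ℂ) ((1 - ((1 - R) / (1 + R)) ^ 3) / 6) ⊆
        (fun z => h z + (starRingEnd ℂ) (g z)) '' ball (0 : ℂ) R) ∧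
    (∃ h g : ℂ → ℂ, SH0 h g ∧ ∀ R : ℝ, 0 < R → R ≤ 1 →
      ((-((1 - ((1 - R) / (1 + R)) ^ 3) / 6) : ℝ) : ℂ) ∉
        (fun z => h z + (starRingEnd ℂ) (g z)) '' ball (0 : ℂ) R) :=
  ⟨fun _ _ H _ h0 h1 => H.covers h0 h1, Koebe.H, Koebe.G, koebe_SH0,
    fun _ h0 h1 => koebe_omits h0 h1⟩

end Pool.Agent.Results.MP_4cd976_an.CoveringRadius
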