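import Pool.Agent.Lib.MP_4cd976_an.HalfLine.Main

/-!
# The sharp covering constant 1/6 for points on an omitted half-line
-/

set_option autoImplicit false

open Complex Metric Set

namespace Pool.Agent.Results.MP_4cd976_an.HalfLine

theorem result (h g ψ : ℂ → ℂ) (hh : DifferentiableOn ℂ h (ball 0 1))
    (hg : DifferentiableOn ℂ g (ball 0 1)) (h0 : h 0 = 0) (h1 : deriv h 0 = 1) (g0 : g 0 = 0)
    (g1 : deriv g 0 = 0) (hJ : ∀ z ∈ ball (0 : ℂ) 1, ‖deriv g z‖ < ‖deriv h z‖)
    (hψ : DifferentiableOn ℂ ψ (ball 0 1)) (hψm : MapsTo ψ (ball 0 1) (ball 0 1)) (hψ0 : ψ 0 = 0)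
    (w : ℂ) (β : ℝ)
    (hw : ∀ z ∈ ball (0 : ℂ) 1, ∀ t : ℝ, 0 ≤ t →
      h (ψ z) + (starRingEnd ℂ) (g (ψ z)) ≠ w + t * exp (β * I)) :
    ‖deriv ψ 0‖ / 6 ≤ ‖w‖ := by
  by_contra hcon
  push Not at hcon
  -- a dilation
  set D : ℝ := ‖deriv ψ 0‖ with hD
  have hD0 : 0 < D := by
    have := norm_nonneg w
    linarith
  have hwD : 6 * ‖w‖ / D < 1 := by rw [div_lt_one hD0]; linarith
  have hwD0 : 0 ≤ 6 * ‖w‖ / D := by positivity
  set r : ℝ := (1 + 6 * ‖w‖ / D) / 2 with hr
  have hr0 : 0 < r := by rw [hr]; linarith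
  have hr1 : r < 1 := by rw [hr]; linarith
  have hrD : 6 * ‖w‖ < r * D := by
    have : 6 * ‖w‖ / D * D = 6 * ‖w‖ := by field_simp
    rw [hr]
    nlinarith
  set R : ℝ := 1 / r with hRdef
  have hR : 1 < R := by rw [hRdef, lt_div_iff₀ hr0]; linarith
  have hR0 : (0 : ℝ) < R := by linarith
  have hrz : ∀ z ∈ ball (0 : ℂ) R, (r : ℂ) * z ∈ ball (0 : ℂ) 1 := by
    intro z hz
    rw [mem_ball_zero_iff, hRdef, lt_div_iff₀ hr0] at hz
    rw [mem_ball_zero_iff, norm_mul, Complex.norm_real, Real.norm_eq_abs, abs_of_pos hr0]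
    linarith
  set φ : ℂ → ℂ := fun z => ψ (r * z) with hφ
  have hφa : ∀ z ∈ ball (0 : ℂ) R, HasDerivAt φ (deriv ψ (r * z) * r) z := by
    intro z hz
    have e1 : HasDerivAt (fun z : ℂ => (r : ℂ) * z) r z := by
      simpa using (hasDerivAt_id z).const_mul (r : ℂ)
    exact (hψ.differentiableAt (isOpen_ball.mem_nhds (hrz z hz))).hasDerivAt.comp z e1
  have hmaps : ∀ z ∈ ball (0 : ℂ) R, φ z ∈ ball (0 : ℂ) 1 := fun z hz => hψm (hrz z hz)
  have hφ0 : φ 0 = 0 := by simp [hφ, hψ0]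
  set c : ℂ := exp (-(β * I)) with hc
  have hcn : ‖c‖ = 1 := by
    rw [hc, show -((β : ℂ) * I) = ((-β : ℝ) : ℂ) * I by push_cast; ring]
    exact norm_exp_ofReal_mul_I _
  have hc0 : c ≠ 0 := Complex.exp_ne_zero _
  set d : ℂ := (starRingEnd ℂ) c with hd
  have hdn : ‖d‖ = 1 := by rw [hd, RCLike.norm_conj, hcn]
  -- the shear data
  set F : ℂ → ℂ := fun z => c * h (φ z) - d * g (φ z) with hF
  set G : ℂ → ℂ := fun z => c * h (φ z) + d * g (φ z) with hG
  set p : ℂ → ℂ := fun z =>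
    (c * deriv h (φ z) + d * deriv g (φ z)) / (c * deriv h (φ z) - d * deriv g (φ z)) with hp
  have hha : ∀ z ∈ ball (0 : ℂ) R, HasDerivAt h (deriv h (φ z)) (φ z) := fun z hz =>
    (hh.differentiableAt (isOpen_ball.mem_nhds (hmaps z hz))).hasDerivAt
  have hga : ∀ z ∈ ball (0 : ℂ) R, HasDerivAt g (deriv g (φ z)) (φ z) := fun z hz =>
    (hg.differentiableAt (isOpen_ball.mem_nhds (hmaps z hz))).hasDerivAt
  have hden : ∀ z ∈ ball (0 : ℂ) R, c * deriv h (φ z) - d * deriv g (φ z) ≠ 0 := by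
    intro z hz h0'
    have h2 := hJ (φ z) (hmaps z hz)
    have h3 : ‖c * deriv h (φ z)‖ = ‖d * deriv g (φ z)‖ := by rw [sub_eq_zero.mp h0']
    rw [norm_mul, norm_mul, hcn, hdn, one_mul, one_mul] at h3
    linarith
  have hφd : ∀ z ∈ ball (0 : ℂ) R, HasDerivAt φ (deriv φ z) z := fun z hz =>
    (hφa z hz).differentiableAt.hasDerivAt
  have hFd : ∀ z ∈ ball (0 : ℂ) R,
      HasDerivAt F ((c * deriv h (φ z) - d * deriv g (φ z)) * deriv φ z) z := by
    intro z hz
    have e1 := ((hha z hz).comp z (hφd z hz)).const_mul c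
    have e2 := ((hga z hz).comp z (hφd z hz)).const_mul d
    exact (e1.sub e2).congr_deriv (by ring)
  have hGd : ∀ z ∈ ball (0 : ℂ) R,
      HasDerivAt G ((c * deriv h (φ z) + d * deriv g (φ z)) * deriv φ z) z := by
    intro z hz
    have e1 := ((hha z hz).comp z (hφd z hz)).const_mul c
    have e2 := ((hga z hz).comp z (hφd z hz)).const_mul d
    exact (e1.add e2).congr_deriv (by ring)
  have hFdiff : DifferentiableOn ℂ F (ball 0 R) := fun z hz =>
    (hFd z hz).differentiableAt.differentiableWithinAt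
  have hφdiff : DifferentiableOn ℂ φ (ball 0 R) := fun z hz =>
    (hφd z hz).differentiableAt.differentiableWithinAt
  have hpdiff : DifferentiableOn ℂ p (ball 0 R) := by
    have e1 : DifferentiableOn ℂ (fun z => deriv h (φ z)) (ball 0 R) :=
      ((hh.analyticOnNhd isOpen_ball).deriv.differentiableOn).comp hφdiff hmaps
    have e2 : DifferentiableOn ℂ (fun z => deriv g (φ z)) (ball 0 R) :=
      ((hg.analyticOnNhd isOpen_ball).deriv.differentiableOn).comp hφdiff hmaps
    exact ((e1.const_mul c).add (e2.const_mul d)).div ((e1.const_mul c).sub (e2.const_mul d)) hden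
  have hp0 : p 0 = 1 := by
    simp only [hp, hφ0, h1, g1, mul_zero, add_zero, sub_zero, mul_one]
    exact div_self hc0
  have hppos : ∀ z ∈ ball (0 : ℂ) R, 0 < (p z).re := by
    intro z hz
    have e0 := hden z hz
    have e1 := hJ (φ z) (hmaps z hz)
    set a := c * deriv h (φ z) with ha
    set b := d * deriv g (φ z) with hb
    have hab : ‖b‖ < ‖a‖ := by
      rw [ha, hb, norm_mul, norm_mul, hcn, hdn, one_mul, one_mul]; exact e1
    have e2 : 0 < normSq (a - b) := normSq_pos.mpr e0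
    have e3 : (p z).re = (‖a‖ ^ 2 - ‖b‖ ^ 2) / normSq (a - b) := by
      simp only [hp]
      rw [div_re, ← add_div, ← normSq_eq_norm_sq, ← normSq_eq_norm_sq, normSq_apply a,
        normSq_apply b]
      congr 1
      simp only [add_re, sub_re, add_im, sub_im]
      ring
    rw [e3]
    apply div_pos _ e2
    nlinarith [norm_nonneg a, norm_nonneg b]
  have hGp : ∀ z ∈ ball (0 : ℂ) R, HasDerivAt G (p z * deriv F z) z := by
    intro z hz
    refine (hGd z hz).congr_deriv ?_
    rw [(hFd z hz).deriv]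
    simp only [hp]
    have := hden z hz
    field_simp
  have hF0 : F 0 = 0 := by simp [hF, hφ0, h0, g0]
  have hG0 : G 0 = 0 := by simp [hG, hφ0, h0, g0]
  -- identification of the harmonic map
  have hmapf : ∀ z : ℂ, (⟨(G z).re, (F z).im⟩ : ℂ) = c * (h (φ z) + (starRingEnd ℂ) (g (φ z))) := by
    intro z
    have e : c * (starRingEnd ℂ) (g (φ z)) = (starRingEnd ℂ) (d * g (φ z)) := by
      rw [map_mul, hd, conj_conj]
    rw [mul_add, e]
    apply Complex.ext
    · simp only [hG, add_re, conj_re]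
    · simp only [hF, sub_im, add_im, conj_im]
      ring
  have hcore := Pool.Agent.Lib.MP4cd976.HL.hl_core (F := F) (p := p) (G := G) (w := c * w) hR hFdiff
    hF0 hpdiff hp0 hppos hGp hG0 (by
      intro z hz him
      by_contra hge
      push Not at hge
      have e1 := hmapf z
      have e2 : c * (h (φ z) + (starRingEnd ℂ) (g (φ z)))
          = c * (w + (((G z).re - (c * w).re : ℝ) : ℂ) * exp (β * I)) := by
        rw [← e1]
        have e3 : c * exp (β * I) = 1 := by
          rw [hc, ← Complex.exp_add]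
          simp
        have e4 : c * (w + (((G z).re - (c * w).re : ℝ) : ℂ) * exp (β * I))
            = c * w + (((G z).re - (c * w).re : ℝ) : ℂ) := by
          linear_combination (((G z).re - (c * w).re : ℝ) : ℂ) * e3
        have key : ∀ (a b : ℝ) (W : ℂ), b = W.im → (⟨a, b⟩ : ℂ) = W + ((a - W.re : ℝ) : ℂ) := by
          intro a b W hb
          apply Complex.ext <;> simp [hb]
        rw [e4]
        exact key _ _ _ him
      exact hw _ (hrz z hz) _ (sub_nonneg.mpr hge) (mul_left_cancel₀ hc0 e2))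
  have h0R : (0 : ℂ) ∈ ball (0 : ℂ) R := mem_ball_self hR0
  have hd0 : deriv F 0 = c * (deriv ψ 0 * r) := by
    rw [(hFd 0 h0R).deriv, (hφa 0 h0R).deriv, mul_zero, hφ0, h1, g1]
    ring
  rw [hd0, norm_mul, norm_mul, norm_mul, hcn, one_mul, one_mul, Complex.norm_real,
    Real.norm_eq_abs, abs_of_pos hr0, ← hD] at hcore
  linarith

end Pool.Agent.Results.MP_4cd976_an.HalfLine
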